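import Pool.Agent.helper37.L5.SpecE

/-!
# Project L5 (MP_baa4d7_al), row LOE5 (helper16, after LOC5 of helper34)
-/

set_option autoImplicit false

namespace Pool.Agent.L5

open Pool.Agent.helper58.DC Pool.Agent.DI Pool.Agent.GR Pool.Agent.OB Pool.Agent.DR Pool.Agent.FI Pool.Agent.FI3 Pool.Agent.FI4 Pool.Agent.FI4I Pool.Agent.FI4E Pool.Agent.LE

open Classical in
private theorem LOE5_fin {G : Type} [Fintype G] (S : Set G) (f : G → ℂ) : ∑ᶠ x ∈ S, f x = ∑ x, if x ∈ S then f x else 0 := by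
  rw [finsum_mem_def, finsum_eq_sum_of_fintype]
  exact Finset.sum_congr rfl fun x _ => Set.indicator_apply _ _ _

open Classical in
theorem LOE5 (hLBE : LBE5_stmt) (hTSI : TSI_stmt) (_hUNS : UNS_stmt) (hFSI : FSI_stmt) (hFEQ : FEQ_stmt) (hBAA : BAA_stmt)
    (hBKV : BKV_stmt) (hB2 : B2_stmt) (hQEI : QEI_stmt) (hBLE : BLE_stmt) : LOE5_stmt := by
  intro p M hS G _ _ D x θ χ hR Q N hMid β hβN hβQ hβD
  cases nonempty_fintype G
  set T := TT M D θ with hT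
  have hBfin : (Blk M χ N).Finite := (hB2 G N).1.subset (fun ψ hψ => hψ.1)
  set ℬ := hBfin.toFinset with hℬ
  have hmemB : ∀ φ, φ ∈ ℬ ↔ φ ∈ Blk M χ N := fun φ => hBfin.mem_toFinset
  -- the blocks over h
  have hset : ∀ h : G, Q ≤ cjS h D →
      Bl M N (cjF h θ) = ((ℬ.filter (fun φ => SB M N (cjF h θ) φ) : Finset (G → ℂ)) : Set (G → ℂ)) := by
    intro g hgQ
    obtain ⟨hb1, hb2, -, -⟩ := hBKV p M hS G D x θ χ hR Q N hMid g hgQ
    ext φ
    rw [Finset.mem_coe, Finset.mem_filter, hmemB]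
    have hθ0 : ∀ y, y ∉ N → cjF g θ y = 0 := by
      intro y hy
      rw [cjF_apply]
      have h1 := ((hB2 G (cz D)).2 θ hR.th).2.2.2.1
      apply h1
      intro h2
      apply hy
      apply hb2
      have h3 : cz (cjS g D) = cjS g (cz D) := (hFEQ G M g g D D D θ θ χ).2.1.1
      rw [h3, mem_cjS]
      exact h2
    have hind : Induces M (cjF g θ) χ := by
      have h4 := (hFEQ G M g g D D D θ θ χ).2.2.2.2.2.1 hR.chi
      exact h4.2.mpr hR.ind
    constructor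
    · rintro ⟨hφ1, hφ2⟩
      have hφ0 : ∀ y, y ∉ N → φ y = 0 := ((hB2 G N).2 φ hφ1).2.2.2.1
      have hsb : SB M N (cjF g θ) φ := hφ2.symm
      refine ⟨⟨hφ1, ?_⟩, hsb⟩
      exact ((hFSI p M hS G N N (cjF g θ) φ).2 hθ0 hφ0 hsb χ).mp hind
    · rintro ⟨hφ1, hφ2⟩
      exact ⟨hφ1.1, hφ2.symm⟩
  have htE : ∀ n ∈ N, ∀ h : G, Q ≤ cjS h D → tE p M N (cjF h θ) (al β n) =
      ∑ φ ∈ ℬ, if SB M N (cjF h θ) φ then EE p N (funMap β φ) φ else 0 := by
    intro n hn h hh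
    unfold tE
    rw [(hTSI p G N β hβN n hn).2 (Bl M N (cjF h θ)) (fun ψ hψ => hψ.1), ← Finset.sum_filter]
    unfold tS
    rw [hset h hh, finsum_mem_coe_finset]
  -- the right side
  have hRHS : ∑ᶠ n ∈ (N : Set G), ∑ᶠ h ∈ {h : G | Q ≤ cjS h D ∧ FxR M (cjS h D) (cjF h θ) (al β n)}, tE p M N (cjF h θ) (al β n) =
      ∑ φ ∈ ℬ, ∑ q : G × G, if q.1 ∈ N ∧ (Q ≤ cjS q.2 D ∧ SB M N (cjF q.2 θ) φ) ∧ FxR M (cjS q.2 D) (cjF q.2 θ) (al β q.1)
        then EE p N (funMap β φ) φ else 0 := by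
    rw [Finset.sum_comm, Fintype.sum_prod_type, LOE5_fin]
    refine Finset.sum_congr rfl fun n _ => ?_
    by_cases hn : n ∈ N
    · rw [if_pos (show n ∈ (N : Set G) from hn), LOE5_fin]
      refine Finset.sum_congr rfl fun h _ => ?_
      by_cases hh : Q ≤ cjS h D ∧ FxR M (cjS h D) (cjF h θ) (al β n)
      · rw [if_pos (show h ∈ {h : G | Q ≤ cjS h D ∧ FxR M (cjS h D) (cjF h θ) (al β n)} from hh), htE n hn h hh.1]
        refine Finset.sum_congr rfl fun φ _ => ?_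
        by_cases hφ : SB M N (cjF h θ) φ
        · rw [if_pos hφ, if_pos ⟨hn, ⟨hh.1, hφ⟩, hh.2⟩]
        · rw [if_neg hφ, if_neg fun h2 => hφ h2.2.1.2]
      · rw [if_neg (show h ∉ {h : G | Q ≤ cjS h D ∧ FxR M (cjS h D) (cjF h θ) (al β n)} from hh)]
        symm
        exact Finset.sum_eq_zero fun φ _ => if_neg fun h2 => hh ⟨h2.2.1.1, h2.2.2⟩
    · rw [if_neg (show n ∉ (N : Set G) from hn)]
      symm
      exact Finset.sum_eq_zero fun h _ => Finset.sum_eq_zero fun φ _ => if_neg fun h2 => hn h2.1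
  rw [hRHS]
  have hLL : tL p M χ N β = ∑ φ ∈ ℬ, EE p N (funMap β φ) φ := by
    unfold tL tS
    rw [finsum_mem_eq_finite_toFinset_sum _ hBfin]
  rw [hLL, Finset.mul_sum, Finset.mul_sum]
  refine Finset.sum_congr rfl fun φ hφ => ?_
  have hφ' : φ ∈ Blk M χ N := (hmemB φ).1 hφ
  by_cases hst : SB M N (funMap β φ) φ
  · have h1 := hLBE p M hS G D x θ χ hR Q N hMid φ hφ' β hβN hβQ hβD hst
    rw [← Finset.sum_filter, Finset.sum_const, nsmul_eq_mul]
    have h2 : {q : G × G | q.1 ∈ N ∧ (Q ≤ cjS q.2 D ∧ SB M N (cjF q.2 θ) φ) ∧ FxR M (cjS q.2 D) (cjF q.2 θ) (al β q.1)} =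
        ((Finset.univ.filter fun q : G × G => q.1 ∈ N ∧ (Q ≤ cjS q.2 D ∧ SB M N (cjF q.2 θ) φ) ∧
          FxR M (cjS q.2 D) (cjF q.2 θ) (al β q.1) : Finset (G × G)) : Set (G × G)) := by
      ext q
      rw [Finset.mem_coe, Finset.mem_filter]
      exact ⟨fun h => ⟨Finset.mem_univ _, h⟩, fun h => h.2⟩
    rw [h2, Set.ncard_coe_finset] at h1
    rw [h1]
    push_cast
    ring
  · have h0 : EE p N (funMap β φ) φ = 0 := by
      have hb := hBLE p M hS G N N le_rfl φ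
      have hbl : Bq M N N φ = Bl M N φ := hb.2.2.2.2.2.2.2
      have hq := (hQEI p M hS G N (Bq M N N φ) hb.1).2.1
      have h3 : funMap β φ ∈ IrrOn N := by
        have h4 := (hBAA G M p β N N N φ φ φ).2.2.1.1 hφ'.1
        rwa [hβN] at h4
      have h5 : φ ∈ Bq M N N φ := by
        rw [hbl]
        exact ⟨hφ'.1, SB.refl _ _⟩
      refine (hq φ h5 (funMap β φ) h3 ?_).2
      intro h6
      rw [hbl] at h6
      exact hst h6.2
    rw [h0, mul_zero, mul_zero]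
    symm
    refine Finset.sum_eq_zero fun q _ => ?_
    rw [ite_self]

end Pool.Agent.L5
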